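import Pool.Agent.Lib.MP_b3782f_an.H79b.Main
import Pool.Agent.Lib.MP_b3782f_an.H79b.Ops
import Pool.Agent.Lib.MP_b3782f_an.H3.Seq

set_option autoImplicit false

open Filter Topology

namespace Pool.Agent.Results.MP_b3782f_an.NonUnital

section Ext

variable {A : Type} [NonUnitalNormedRing A] [NormedSpace ℂ A] [IsScalarTower ℂ A A]
  [SMulCommClass ℂ A A]

/-- The extension `(l, a) ↦ (0, δ a)` of a derivation to the unitization. -/
noncomputable def extd (δ : A →ₗ[ℂ] A) :
    WithLp 1 (Unitization ℂ A) →ₗ[ℂ] WithLp 1 (Unitization ℂ A) where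
  toFun x := WithLp.toLp 1 ((δ x.ofLp.snd : A) : Unitization ℂ A)
  map_add' x y := by
    simp [← WithLp.toLp_add]
  map_smul' c x := by
    simp [← WithLp.toLp_smul]

theorem extd_apply (δ : A →ₗ[ℂ] A) (x : WithLp 1 (Unitization ℂ A)) :
    extd δ x = WithLp.toLp 1 ((δ x.ofLp.snd : A) : Unitization ℂ A) := rfl

theorem extd_mul {δ : A →ₗ[ℂ] A} (hδ : ∀ a b : A, δ (a * b) = a * δ b + δ a * b)
    (x y : WithLp 1 (Unitization ℂ A)) : extd δ (x * y) = x * extd δ y + extd δ x * y := by
  apply WithLp.ofLp_injective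
  rw [WithLp.ofLp_add, WithLp.unitization_mul, WithLp.unitization_mul, extd_apply, extd_apply,
    extd_apply, WithLp.unitization_mul]
  apply Unitization.ext
  · simp
  · simp only [Unitization.snd_mul, Unitization.snd_add, Unitization.fst_inr, Unitization.snd_inr,
      map_add, map_smul, hδ, zero_smul, zero_add, add_zero]
    abel

theorem extd_iterate (δ : A →ₗ[ℂ] A) (n : ℕ) (a : A) :
    (extd δ ^ n) (WithLp.toLp 1 (a : Unitization ℂ A))
      = WithLp.toLp 1 (((⇑δ)^[n] a : A) : Unitization ℂ A) := by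
  induction n generalizing a with
  | zero => rfl
  | succ n ih =>
    rw [pow_succ, Module.End.mul_apply, Function.iterate_succ_apply, ← ih]
    rfl

end Ext

/-- **Full answer.** For every complex Banach algebra `A`, unital or not, every derivation `δ` of
`A` (continuous or not) and every `n`, the separating space of `δ ^ n` is contained in the Jacobson
radical of `A`, that is, in the Jacobson radical of the unitization of `A`. -/
theorem result :
    ∀ (A : Type) [NonUnitalNormedRing A] [NormedSpace ℂ A] [IsScalarTower ℂ A A]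
      [SMulCommClass ℂ A A] [CompleteSpace A]
      (δ : A →ₗ[ℂ] A), (∀ a b : A, δ (a * b) = a * δ b + δ a * b) →
      ∀ (n : ℕ) (y : A),
        (∃ x : ℕ → A, Tendsto x atTop (𝓝 0) ∧ Tendsto (fun k => (⇑δ)^[n] (x k)) atTop (𝓝 y)) →
        (y : Unitization ℂ A) ∈ (⊥ : Ideal (Unitization ℂ A)).jacobson := by
  intro A _ _ _ _ _ δ hδ n y hy
  obtain ⟨x, hx1, hx2⟩ := hy
  have hiso := WithLp.unitization_isometry_inr (𝕜 := ℂ) (A := A)
  have h1 : Tendsto (fun k => WithLp.toLp 1 ((x k : A) : Unitization ℂ A)) atTop (𝓝 0) := by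
    have h := (hiso.continuous.tendsto 0).comp hx1
    rw [Unitization.inr_zero, WithLp.toLp_zero] at h
    exact h
  have h2 : Tendsto (fun k => (extd δ ^ n) (WithLp.toLp 1 ((x k : A) : Unitization ℂ A))) atTop
      (𝓝 (WithLp.toLp 1 ((y : A) : Unitization ℂ A))) := by
    simp only [extd_iterate]
    exact (hiso.continuous.tendsto y).comp hx2
  have h3 := Pool.Agent.Lib.MP_b3782f_an.H79b.main_sep' (extd_mul hδ)
    Pool.Agent.Lib.MP_b3782f_an.H3.seq Pool.Agent.Lib.MP_b3782f_an.H79b.OpsMod.ops n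
    (WithLp.toLp 1 ((y : A) : Unitization ℂ A)) ⟨_, h1, h2⟩
  have h4 : WithLp.toLp 1 ((y : A) : Unitization ℂ A) ∈
      (⊥ : Ideal (WithLp 1 (Unitization ℂ A))).jacobson := h3
  rw [Ideal.mem_jacobson_iff] at h4 ⊢
  intro b
  obtain ⟨z, hz⟩ := h4 (WithLp.toLp 1 b)
  refine ⟨z.ofLp, ?_⟩
  rw [Ideal.mem_bot] at hz ⊢
  have h5 := congrArg WithLp.ofLp hz
  exact h5

end Pool.Agent.Results.MP_b3782f_an.NonUnital
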